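import Pool.Agent.H93.HQ.Targets

set_option autoImplicit false

namespace Pool.Agent.H49.HQ
open MeasureTheory Set Filter Topology Pool.Agent.H80.HS Pool.Agent.H93.HQ
open scoped ContDiff ENNReal

/-- the Gamma integral -/
lemma gam (s q : ℝ) (h : -1 < s + q) :
    ∫⁻ r in Ioi (0 : ℝ), ENNReal.ofReal (r ^ s * Real.exp (-r ^ (4 : ℝ))) *
      ENNReal.ofReal (r ^ q) = ENNReal.ofReal (1 / 4 * Real.Gamma ((s + q + 1) / 4)) := by
  have h1 : ∫⁻ r in Ioi (0 : ℝ), ENNReal.ofReal (r ^ s * Real.exp (-r ^ (4 : ℝ))) *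
      ENNReal.ofReal (r ^ q) =
      ∫⁻ r in Ioi (0 : ℝ), ENNReal.ofReal (r ^ (s + q) * Real.exp (-r ^ (4 : ℝ))) := by
    refine setLIntegral_congr_fun measurableSet_Ioi ?_
    intro r hr
    have hr0 : 0 < r := hr
    simp only
    rw [← ENNReal.ofReal_mul (by positivity), Real.rpow_add hr0]
    congr 1
    ring
  rw [h1, ← ofReal_integral_eq_lintegral_ofReal]
  · rw [integral_rpow_mul_exp_neg_rpow (by norm_num) h]
  · exact integrableOn_rpow_mul_exp_neg_rpow h (by norm_num)
  · refine (ae_restrict_iff' measurableSet_Ioi).2 (Eventually.of_forall ?_)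
    intro r hr
    have hr0 : 0 < r := hr
    simp only [Pi.zero_apply]
    positivity

lemma al_mul_N {n : ℕ} (x : H n) : al x * N x = mz x := by
  unfold al
  by_cases h : N x = 0
  · have h1 := mz_le_N x
    have h2 := mz_nonneg x
    rw [h] at h1 ⊢
    simp only [mul_zero]
    linarith
  · field_simp

lemma vol_lt_top (n : ℕ) : (volume {x : H n | N x < 1}) < ⊤ := by
  have hsub : {x : H n | N x < 1} ⊆ Metric.closedBall 0 1 := by
    intro x hx
    have hx1 : N x < 1 := hx
    have h4 : N x ^ 4 < 1 := pow_lt_one₀ (N_nonneg x) hx1 (by norm_num)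
    rw [N_pow_four'] at h4
    have hs : sq x ^ 2 < 1 := by nlinarith [sq_nonneg x.2.2]
    have ht : x.2.2 ^ 2 < 1 := by nlinarith [sq_nonneg (sq x)]
    have hs1 : sq x < 1 := by nlinarith [sq_nonneg' x]
    have h1 : ‖x.1‖ ^ 2 < 1 := by
      have : sq x = ‖x.1‖ ^ 2 + ‖x.2.1‖ ^ 2 := rfl
      nlinarith [sq_nonneg ‖x.2.1‖]
    have h2 : ‖x.2.1‖ ^ 2 < 1 := by
      have : sq x = ‖x.1‖ ^ 2 + ‖x.2.1‖ ^ 2 := rfl
      nlinarith [sq_nonneg ‖x.1‖]
    rw [mem_closedBall_zero_iff]
    simp only [Prod.norm_def, sup_le_iff]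
    refine ⟨?_, ?_, ?_⟩
    · nlinarith [norm_nonneg x.1]
    · nlinarith [norm_nonneg x.2.1]
    · rw [Real.norm_eq_abs]
      rw [← sq_abs] at ht
      nlinarith [abs_nonneg x.2.2]
  exact (measure_mono hsub).trans_lt (measure_closedBall_lt_top)

theorem pf_POL (h1 : U_RAD) (h2 : U_PL) (h3 : U_DIL) (h4 : U_MZ) : U_POL := by
  intro n hn s hs f hf
  have hn0 : (0 : ℝ) < n := by exact_mod_cast hn
  set w : H n → ℝ≥0∞ := fun x => ENNReal.ofReal (al x ^ s) with hw
  have hal := measurable_al (n := n)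
  have hwm : Measurable w := by
    refine ENNReal.measurable_ofReal.comp ?_
    exact hal.pow_const s
  have hNm : Measurable (N : H n → ℝ) := (continuous_N (n := n)).measurable
  have hw1 : ∀ x, w x ≤ 1 := by
    intro x
    have : al x ^ s ≤ 1 := Real.rpow_le_one (al_nonneg x) (al_le_one x) hs
    calc w x = ENNReal.ofReal (al x ^ s) := rfl
      _ ≤ ENNReal.ofReal 1 := ENNReal.ofReal_le_ofReal this
      _ = 1 := ENNReal.ofReal_one
  set S : ℝ≥0∞ := ∫⁻ x in {x : H n | N x < 1}, w x with hS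
  have hST : S ≠ ⊤ := by
    have : S ≤ ∫⁻ x in {x : H n | N x < 1}, 1 := lintegral_mono hw1
    rw [setLIntegral_one] at this
    exact (this.trans_lt (vol_lt_top n)).ne
  have hms : ∀ r : ℝ, MeasurableSet {x : H n | N x < r} := fun r =>
    measurableSet_lt hNm measurable_const
  have hsc : ∀ r : ℝ, 0 < r → ∫⁻ x in {x : H n | N x < r}, w x =
      S * ENNReal.ofReal (r ^ (2 * (n : ℝ) + 2)) := by
    intro r hr
    have hd := h3 n ({x : H n | N x < r}.indicator w) r (hwm.indicator (hms r)) hr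
    rw [lintegral_indicator (hms r)] at hd
    rw [← hd, mul_comm S]
    congr 1
    · congr 1
      rw [← Real.rpow_natCast]
      push_cast
      rfl
    · rw [hS, ← lintegral_indicator (hms 1)]
      refine lintegral_congr fun x => ?_
      have e1 : N (dil r x) < r ↔ N x < 1 := by
        rw [N_dil hr.le]
        constructor
        · intro h
          by_contra h'
          push Not at h'
          nlinarith
        · intro h
          nlinarith
      by_cases hx : N x < 1
      · rw [indicator_of_mem (show dil r x ∈ {x : H n | N x < r} from e1.2 hx),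
          indicator_of_mem (show x ∈ {x : H n | N x < 1} from hx)]
        simp only [hw, al_dil hr]
      · rw [indicator_of_notMem (show dil r x ∉ {x : H n | N x < r} from fun h => hx (e1.1 h)),
          indicator_of_notMem (show x ∉ {x : H n | N x < 1} from hx)]
  have hpos : ∀ᵐ x : H n, 0 < N x := (h4 n hn).mono fun x hx => N_pos_of_mz hx
  have hrad := h1 (H n) volume N w (2 * (n : ℝ) + 2) S hNm hwm (by positivity) hST hpos hsc
  have hexp : (2 * (n : ℝ) + 2 - 1) = 2 * n + 1 := by ring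
  rw [hexp] at hrad
  -- the test function
  set f0 : ℝ → ℝ≥0∞ := fun r => ENNReal.ofReal (r ^ s * Real.exp (-r ^ (4 : ℝ))) with hf0
  have hf0m : Measurable f0 := by
    refine ENNReal.measurable_ofReal.comp ?_
    fun_prop
  have e0 := hrad f0 hf0m
  have eR : ∫⁻ r in Ioi (0 : ℝ), f0 r * ENNReal.ofReal (r ^ (2 * (n : ℝ) + 1)) =
      ENNReal.ofReal (1 / 4 * Real.Gamma ((2 * n + 2 + s) / 4)) := by
    rw [hf0]
    simp only
    rw [gam s (2 * n + 1) (by linarith)]
    congr 4
    ring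
  have eL : ∫⁻ x : H n, w x * f0 (N x) =
      ENNReal.ofReal (2 * Real.pi ^ n / Real.Gamma n) *
        ENNReal.ofReal (1 / 4 * Real.Gamma ((2 * n + s) / 4)) *
          ENNReal.ofReal (Real.sqrt Real.pi) := by
    have hGm : Measurable (fun z : V n × V n => f0 (Real.sqrt (‖z.1‖ ^ 2 + ‖z.2‖ ^ 2))) := by
      refine hf0m.comp ?_
      fun_prop
    have hTm : Measurable (fun t : ℝ => ENNReal.ofReal (Real.exp (-t ^ 2))) := by fun_prop
    have p1 : ∫⁻ x : H n, w x * f0 (N x) = ∫⁻ x : H n,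
        f0 (Real.sqrt (‖x.1‖ ^ 2 + ‖x.2.1‖ ^ 2)) * ENNReal.ofReal (Real.exp (-x.2.2 ^ 2)) := by
      refine lintegral_congr fun x => ?_
      have hmz : Real.sqrt (‖x.1‖ ^ 2 + ‖x.2.1‖ ^ 2) = mz x := rfl
      rw [hmz]
      simp only [hw, hf0]
      rw [← ENNReal.ofReal_mul (Real.rpow_nonneg (al_nonneg x) _),
        ← ENNReal.ofReal_mul (mul_nonneg (Real.rpow_nonneg (mz_nonneg x) _) (Real.exp_pos _).le)]
      congr 1
      have q1 : al x ^ s * N x ^ s = mz x ^ s := by
        rw [← Real.mul_rpow (al_nonneg x) (N_nonneg x), al_mul_N]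
      have q2 : N x ^ (4 : ℝ) = N x ^ 4 := by
        rw [← Real.rpow_natCast]; norm_num
      have q3 : mz x ^ (4 : ℝ) = mz x ^ 4 := by
        rw [← Real.rpow_natCast]; norm_num
      have q4 : mz x ^ 4 = sq x ^ 2 := by
        rw [← mz_sq]; ring
      rw [q2, q3, q4, N_pow_four', neg_add, Real.exp_add, ← q1]
      ring
    have p2 : ∫⁻ x : H n,
        f0 (Real.sqrt (‖x.1‖ ^ 2 + ‖x.2.1‖ ^ 2)) * ENNReal.ofReal (Real.exp (-x.2.2 ^ 2)) =
        ∫⁻ y : (V n × V n) × ℝ, f0 (Real.sqrt (‖y.1.1‖ ^ 2 + ‖y.1.2‖ ^ 2)) *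
          ENNReal.ofReal (Real.exp (-y.2 ^ 2)) := by
      have hmp : MeasurePreserving (MeasurableEquiv.prodAssoc :
          (V n × V n) × ℝ ≃ᵐ V n × V n × ℝ) volume volume :=
        volume_preserving_prodAssoc
      rw [← hmp.lintegral_comp_emb (MeasurableEquiv.prodAssoc).measurableEmbedding]
      rfl
    rw [p1, p2, Measure.volume_eq_prod,
      lintegral_prod_mul (f := fun z : V n × V n => f0 (Real.sqrt (‖z.1‖ ^ 2 + ‖z.2‖ ^ 2)))
        hGm.aemeasurable hTm.aemeasurable, h2 n hn f0 hf0m]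
    have p3 : ∫⁻ r in Ioi (0 : ℝ), f0 r * ENNReal.ofReal (r ^ (2 * (n : ℝ) - 1)) =
        ENNReal.ofReal (1 / 4 * Real.Gamma ((2 * n + s) / 4)) := by
      rw [hf0]
      simp only
      have hn1 : (1 : ℝ) ≤ n := by exact_mod_cast hn
      rw [gam s (2 * n - 1) (by linarith)]
      congr 4
      ring
    have p4 : ∫⁻ t : ℝ, ENNReal.ofReal (Real.exp (-t ^ 2)) =
        ENNReal.ofReal (Real.sqrt Real.pi) := by
      have hi := integrable_exp_neg_mul_sq (b := 1) one_pos
      have hg := integral_gaussian 1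
      simp only [one_mul, neg_mul, div_one] at hi hg
      rw [← ofReal_integral_eq_lintegral_ofReal hi
        (Eventually.of_forall fun t => (Real.exp_pos _).le), hg]
    rw [p3, p4]
  rw [eR, eL] at e0
  have hG1 : 0 < Real.Gamma n := Real.Gamma_pos_of_pos hn0
  have hG2 : 0 < Real.Gamma ((2 * n + s) / 4) := Real.Gamma_pos_of_pos (by positivity)
  have hG3 : 0 < Real.Gamma ((2 * n + 2 + s) / 4) := Real.Gamma_pos_of_pos (by positivity)
  have hSd : S * ENNReal.ofReal (2 * (n : ℝ) + 2) = ENNReal.ofReal (sg n s) := by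
    have hc0 : ENNReal.ofReal (1 / 4 * Real.Gamma ((2 * n + 2 + s) / 4)) ≠ 0 := by
      rw [ENNReal.ofReal_ne_zero_iff]
      positivity
    have hcT : ENNReal.ofReal (1 / 4 * Real.Gamma ((2 * n + 2 + s) / 4)) ≠ ⊤ :=
      ENNReal.ofReal_ne_top
    refine (ENNReal.mul_left_inj hc0 hcT).1 ?_
    rw [← e0, ← ENNReal.ofReal_mul (by positivity), ← ENNReal.ofReal_mul (by positivity),
      ← ENNReal.ofReal_mul (sg_pos hn hs).le]
    congr 1
    unfold sg
    have hpi : Real.pi ^ ((n : ℝ) + 1 / 2) = Real.pi ^ n * Real.sqrt Real.pi := by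
      rw [Real.rpow_add Real.pi_pos, Real.rpow_natCast, Real.sqrt_eq_rpow]
    rw [hpi]
    field_simp
  have := hrad f hf
  rw [hSd] at this
  exact this

end Pool.Agent.H49.HQ
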